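import Pool.Agent.K1H22.SR.Stm2

/-!
# Null paths in a free product
-/

set_option autoImplicit false

namespace Pool.Agent.K1H96.SR2

open Pool.Agent.K1H22.SR2

section

variable {T I M : Type} {K : I → Type} [∀ i, Group (K i)] [AddCommMonoid M]

/-- the value of a word -/
def ev (l : List (Σ i, K i)) : Monoid.CoprodI K :=
  (l.map (fun a : Σ i, K i => (Monoid.CoprodI.of a.2 : Monoid.CoprodI K))).prod

lemma ev_cons (a : Σ i, K i) (l : List (Σ i, K i)) :
    ev (a :: l) = Monoid.CoprodI.of a.2 * ev l := by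
  simp [ev]

lemma ev_append (l l' : List (Σ i, K i)) : ev (l ++ l') = ev l * ev l' := by
  simp [ev]

omit [∀ i, Group (K i)] in
lemma lp_append {E : Finset (T × (Σ i, K i) × M × T)} {p q r : T} {l l' : List (Σ i, K i)}
    {v w : M} (h : LP E p q l v) (h' : LP E q r l' w) : LP E p r (l ++ l') (v + w) := by
  induction h with
  | nil => simpa using h'
  | cons he _ ih =>
    rw [add_assoc]
    exact LP.cons he (ih h')

lemma back {E : Finset (T × (Σ i, K i) × M × T)} {p q : T} {i : I} {g : K i} {v : M}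
    (h : Mi E p q i g v) : ∃ l, LP E p q l v ∧ ev l = Monoid.CoprodI.of g := by
  induction h with
  | nil => exact ⟨[], LP.nil, by simp [ev]⟩
  | letter he _ ih =>
    obtain ⟨l, hl, hle⟩ := ih
    exact ⟨_, LP.cons he hl, by rw [ev_cons, hle, map_mul]⟩
  | jump _ _ ih1 ih2 =>
    obtain ⟨l, hl, hle⟩ := ih1
    obtain ⟨l', hl', hle'⟩ := ih2
    exact ⟨_, lp_append hl hl', by rw [ev_append, hle, hle', map_one, one_mul]⟩

/-- a stack of paths in the factors -/
def Stk (E : Finset (T × (Σ i, K i) × M × T)) (q : T) : List (Σ i, K i) → T → M → Prop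
  | [], p, v => ∃ j, Mi E p q j 1 v
  | a :: rest, p, v => ∃ (r : T) (v1 v2 : M), Mi E p r a.1 a.2 v1 ∧ Stk E q rest r v2 ∧ v = v1 + v2

lemma absorb {E : Finset (T × (Σ i, K i) × M × T)} {p q r : T} {j : I} {v1 v2 : M}
    {w : List (Σ i, K i)} (h : Mi E p r j 1 v1) (h' : Stk E q w r v2) :
    Stk E q w p (v1 + v2) := by
  cases w with
  | nil =>
    obtain ⟨j', hj'⟩ := h'
    exact ⟨j', Mi.jump h hj'⟩
  | cons b rest =>
    obtain ⟨r2, x1, x2, h1, h2, rfl⟩ := h'
    exact ⟨r2, v1 + x1, x2, Mi.jump h h1, h2, by rw [add_assoc]⟩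

/-- reduced words -/
def Red (w : List (Σ i, K i)) : Prop :=
  (∀ a ∈ w, a.2 ≠ 1) ∧ w.IsChain (fun a b => a.1 ≠ b.1)

lemma forth [Nonempty I] {E : Finset (T × (Σ i, K i) × M × T)} {p q : T}
    {l : List (Σ i, K i)} {v : M} (h : LP E p q l v) :
    ∃ w : List (Σ i, K i), Red w ∧ ev w = ev l ∧ Stk E q w p v := by
  classical
  induction h with
  | nil =>
    exact ⟨[], ⟨by simp, List.isChain_nil⟩, rfl, Classical.arbitrary I, Mi.nil⟩
  | @cons p p' q a l u v he _ ih =>
    obtain ⟨w, hw, hwe, hws⟩ := ih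
    obtain ⟨j, a⟩ := a
    by_cases hhead : ∃ (g : K j) (rest : List (Σ i, K i)), w = ⟨j, g⟩ :: rest
    · obtain ⟨g, rest, rfl⟩ := hhead
      obtain ⟨r, v1, v2, h1, h2, rfl⟩ := hws
      have hred : Red rest := by
        refine ⟨fun b hb => hw.1 b (List.mem_cons_of_mem _ hb), ?_⟩
        exact (List.isChain_cons.1 hw.2).2
      by_cases hag : a * g = 1
      · refine ⟨rest, hred, ?_, ?_⟩
        · rw [ev_cons, ← hwe, ev_cons, ← mul_assoc, ← map_mul, hag, map_one, one_mul]
        · have h3 : Mi E p r j (a * g) (u + v1) := Mi.letter he h1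
          rw [hag] at h3
          have h4 := absorb h3 h2
          rwa [add_assoc] at h4
      · refine ⟨⟨j, a * g⟩ :: rest, ⟨?_, ?_⟩, ?_, ?_⟩
        · intro b hb
          rcases List.mem_cons.1 hb with rfl | hb
          · exact hag
          · exact hred.1 b hb
        · have h5 := hw.2
          rw [List.isChain_cons] at h5 ⊢
          exact ⟨h5.1, hred.2⟩
        · rw [ev_cons, ev_cons, ← hwe, ev_cons, map_mul, mul_assoc]
        · exact ⟨r, u + v1, v2, Mi.letter he h1, h2, by rw [add_assoc]⟩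
    · by_cases ha : a = 1
      · subst ha
        refine ⟨w, hw, ?_, ?_⟩
        · rw [ev_cons, map_one, one_mul, hwe]
        · have h3 : Mi E p p' j ((1 : K j) * 1) (u + 0) := Mi.letter he Mi.nil
          rw [mul_one, add_zero] at h3
          exact absorb h3 hws
      · refine ⟨⟨j, a⟩ :: w, ⟨?_, ?_⟩, ?_, ?_⟩
        · intro b hb
          rcases List.mem_cons.1 hb with rfl | hb
          · exact ha
          · exact hw.1 b hb
        · rw [List.isChain_cons]
          refine ⟨?_, hw.2⟩
          intro b hb hjb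
          apply hhead
          cases w with
          | nil => simp at hb
          | cons c rest =>
            simp only [List.head?_cons, Option.mem_def, Option.some.injEq] at hb
            subst hb
            obtain ⟨i, g⟩ := c
            have hji : j = i := hjb
            subst hji
            exact ⟨g, rest, rfl⟩
        · rw [ev_cons, ev_cons, hwe]
        · have h3 : Mi E p p' j (a * 1) (u + 0) := Mi.letter he Mi.nil
          rw [mul_one, add_zero] at h3
          exact ⟨p', u, v, h3, hws, rfl⟩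

lemma red_nil {w : List (Σ i, K i)} (hw : Red w) (h : ev w = 1) : w = [] := by
  classical
  have h1 : Monoid.CoprodI.Word.equiv.symm (⟨w, hw.1, hw.2⟩ : Monoid.CoprodI.Word K) =
      Monoid.CoprodI.Word.equiv.symm Monoid.CoprodI.Word.empty := by
    exact h
  have h2 := Monoid.CoprodI.Word.equiv.symm.injective h1
  exact congrArg Monoid.CoprodI.Word.toList h2

end

theorem t_NUL : S_NUL := by
  intro I _ K _ M T _ E p q v
  constructor
  · rintro ⟨l, hl, hle⟩
    obtain ⟨w, hw, hwe, hws⟩ := forth hl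
    have h1 : w = [] := red_nil hw (hwe.trans hle)
    subst h1
    exact hws
  · rintro ⟨i, hi⟩
    obtain ⟨l, hl, hle⟩ := back hi
    exact ⟨l, hl, hle.trans (map_one _)⟩

end Pool.Agent.K1H96.SR2
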